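import Pool.Agent.N825.FC.App

set_option autoImplicit false

/-!
# Record prime gaps at products, at cosets of subgroups and at powers modulo primes
-/

namespace Pool.Agent.N825.FC

open Finset Filter
open Pool.Agent.W147.PS (ff ff_compare ev_pow)

/-- Many members of the family `v` have representatives in the boxes of side `L` all coordinates
of which are centres of record gaps. -/
def Many (κ ε δ : ℝ) (P : ℕ) {ι : Type} {r : ℕ} (s : Finset ι) (v : ι → Fin r → ZMod P) : Prop :=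
  ∀ (M : Fin r → ℤ) (L : ℕ), (P : ℝ) ^ (1 - δ) ≤ L → L ≤ P →
    ∃ g ⊆ s, s.card * (P : ℝ) ^ (-ε) ≤ g.card ∧
      ∀ i ∈ g, ∀ j, ∃ n : ℤ, M j < n ∧ n ≤ M j + L ∧ (n : ZMod P) = v i j ∧ Mid κ ε P n

lemma Mid.mono {κ ε ε' Z : ℝ} (hZ : 1 ≤ Z) (hε : ε ≤ ε') {n : ℤ} (h : Mid κ ε Z n) :
    Mid κ ε' Z n := by
  intro t ht
  obtain ⟨p, hp, hpX, hpt⟩ := h t ht
  exact ⟨p, hp, hpX.trans (Real.rpow_le_rpow_of_exponent_le hZ hε), hpt⟩

/-- The criterion. -/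
theorem crit (r : ℕ) (hr : 1 ≤ r) (ε : ℝ) (hε : 0 < ε) (hε1 : ε ≤ 1) :
    ∃ κ : ℝ, 0 < κ ∧ ∃ δ : ℝ, 0 < δ ∧ ∃ P₀ : ℝ, ∀ (P : ℕ) [Fact P.Prime], P₀ ≤ P →
    ∀ (ι : Type) (s : Finset ι) (v : ι → Fin r → ZMod P), s.Nonempty →
    (∀ h : Fin r → ZMod P, h ≠ 0 →
      ‖∑ i ∈ s, (ZMod.stdAddChar (∑ j, h j * v i j) : ℂ)‖ ≤ s.card * (P : ℝ) ^ (-ε)) →
    Many κ ε δ P s v := by
  obtain ⟨κ, hκ, δ, hδ, P₀, h⟩ := many r hr ε hε hε1
  refine ⟨κ, hκ, δ, hδ, P₀, ?_⟩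
  intro P _ hP ι s v hs hv M L hL1 hL2
  obtain ⟨g, hg, h1, h2⟩ := h P hP ι s v hs hv M L hL1 hL2
  exact ⟨g, hg, h1, fun i hi j => ⟨rep (M j) (v i j), rep_gt _ _, (h2 i hi j).1, rep_cast _ _,
    (h2 i hi j).2⟩⟩

/-- A weaker exponent. -/
lemma Many.mono {κ ε ε' δ : ℝ} {P : ℕ} (hP : (1 : ℝ) ≤ P) (hε : ε ≤ ε') {ι : Type} {r : ℕ}
    {s : Finset ι} {v : ι → Fin r → ZMod P} (h : Many κ ε δ P s v) : Many κ ε' δ P s v := by
  intro M L hL1 hL2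
  obtain ⟨g, hg, h1, h2⟩ := h M L hL1 hL2
  refine ⟨g, hg, le_trans ?_ h1, fun i hi j => ?_⟩
  · exact mul_le_mul_of_nonneg_left
      (Real.rpow_le_rpow_of_exponent_le hP (by linarith)) (Nat.cast_nonneg _)
  · obtain ⟨n, a1, a2, a3, a4⟩ := h2 i hi j
    exact ⟨n, a1, a2, a3, a4.mono hP hε⟩

/-- Products of two sets. -/
theorem products (r : ℕ) (hr : 1 ≤ r) (ε : ℝ) (hε : 0 < ε) (hε1 : ε ≤ 1) :
    ∃ κ : ℝ, 0 < κ ∧ ∃ δ : ℝ, 0 < δ ∧ ∃ P₀ : ℝ, ∀ (P : ℕ) [Fact P.Prime], P₀ ≤ P →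
    ∀ A B : Finset (ZMod P), (P : ℝ) ^ (1 + ε) ≤ A.card * B.card →
    ∀ G K : Fin r → ZMod P → ZMod P,
    Many κ ε δ P (A ×ˢ B) (fun w j => w.1 * w.2 ^ ((j : ℕ) + 1) + G j w.1 + K j w.2) := by
  obtain ⟨κ, hκ, δ, hδ, P₀, h⟩ := crit r hr (ε / 4) (by positivity) (by linarith)
  obtain ⟨P₁, hP₁⟩ := eventually_atTop.1 ((eventually_ge_atTop (1 : ℝ)).and
    (ev_pow 1 (1 + ε / 2) r (by linarith)))
  refine ⟨κ, hκ, δ, hδ, max P₀ P₁, ?_⟩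
  intro P _ hP A B hAB G K
  obtain ⟨hP1, hPr⟩ := hP₁ P ((le_max_right _ _).trans hP)
  have hP0 : (0 : ℝ) < P := by linarith
  have hAB0 : (0 : ℝ) < A.card * B.card := lt_of_lt_of_le (Real.rpow_pos_of_pos hP0 _) hAB
  have hne : (A ×ˢ B).Nonempty := by
    rw [← card_pos, card_product]
    exact_mod_cast hAB0
  refine Many.mono hP1 (by linarith : ε / 4 ≤ ε)
    (h P ((le_max_left _ _).trans hP) _ _ _ hne fun k hk => ?_)
  have h1 := bilin (P := P) A B (fun b => ∑ j, k j * b ^ ((j : ℕ) + 1))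
    (fun a => ZMod.stdAddChar (∑ j, k j * G j a)) (fun b => ZMod.stdAddChar (∑ j, k j * K j b))
    (fun a => (AddChar.norm_apply _ _).le) (fun b => (AddChar.norm_apply _ _).le) r
    (fun y => roots r k hk B y)
  have h2 : ∑ w ∈ A ×ˢ B, (ZMod.stdAddChar (∑ j, k j *
      (w.1 * w.2 ^ ((j : ℕ) + 1) + G j w.1 + K j w.2)) : ℂ) =
      ∑ a ∈ A, ∑ b ∈ B, ZMod.stdAddChar (∑ j, k j * G j a) *
        (ZMod.stdAddChar (a * ∑ j, k j * b ^ ((j : ℕ) + 1)) *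
          ZMod.stdAddChar (∑ j, k j * K j b)) := by
    rw [sum_product]
    refine sum_congr rfl fun a _ => sum_congr rfl fun b _ => ?_
    rw [← AddChar.map_add_eq_mul, ← AddChar.map_add_eq_mul]
    congr 1
    rw [mul_sum, ← sum_add_distrib, ← sum_add_distrib]
    exact sum_congr rfl fun j _ => by ring
  rw [h2]
  refine le_of_sq_le_sq ?_ (by positivity)
  refine h1.trans ?_
  rw [card_product]
  push_cast
  rw [Real.rpow_one] at hPr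
  have h3 : (r : ℝ) * P ≤ (A.card * B.card) * (P : ℝ) ^ (-(ε / 2)) := by
    calc (r : ℝ) * P ≤ (P : ℝ) ^ (1 + ε / 2) := hPr
      _ = (P : ℝ) ^ (1 + ε) * (P : ℝ) ^ (-(ε / 2)) := by
          rw [← Real.rpow_add hP0]; congr 1; ring
      _ ≤ _ := mul_le_mul_of_nonneg_right hAB (by positivity)
  have h4 : ((P : ℝ) ^ (-(ε / 4))) ^ 2 = (P : ℝ) ^ (-(ε / 2)) := by
    rw [← Real.rpow_natCast, ← Real.rpow_mul hP0.le]
    congr 1
    push_cast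
    ring
  calc (A.card : ℝ) * (P * (r * B.card)) = (A.card * B.card) * (r * P) := by ring
    _ ≤ (A.card * B.card) * ((A.card * B.card) * (P : ℝ) ^ (-(ε / 2))) :=
        mul_le_mul_of_nonneg_left h3 hAB0.le
    _ = (A.card * B.card * (P : ℝ) ^ (-(ε / 4))) ^ 2 := by
        rw [mul_pow, h4]; ring

/-- Cosets of subgroups. -/
theorem cosets (ε : ℝ) (hε : 0 < ε) (hε1 : ε ≤ 1) :
    ∃ κ : ℝ, 0 < κ ∧ ∃ δ : ℝ, 0 < δ ∧ ∃ P₀ : ℝ, ∀ (P : ℕ) [Fact P.Prime], P₀ ≤ P →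
    ∀ (H : Subgroup (ZMod P)ˣ) (s : Finset (ZMod P)ˣ), (∀ h, h ∈ s ↔ h ∈ H) →
    (P : ℝ) ^ (3 / 8 + ε) ≤ s.card → ∀ x : ZMod P, x ≠ 0 →
    Many κ ε δ P s (fun h (_ : Fin 1) => x * (h : ZMod P)) := by
  classical
  obtain ⟨κ, hκ, δ, hδ, P₀, h⟩ := crit 1 le_rfl (ε / 4) (by positivity) (by linarith)
  obtain ⟨P₁, hP₁⟩ := eventually_atTop.1 ((eventually_ge_atTop (1 : ℝ)).and
    (ev_pow (1 + 2 * ε) (1 + 8 * ε / 3) 64 (by linarith)))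
  refine ⟨κ, hκ, δ, hδ, max P₀ P₁, ?_⟩
  intro P _ hP H s hs hcard x hx
  obtain ⟨hP1, hP64⟩ := hP₁ P ((le_max_right _ _).trans hP)
  have hP0 : (0 : ℝ) < P := by linarith
  have hs0 : (0 : ℝ) < s.card := lt_of_lt_of_le (Real.rpow_pos_of_pos hP0 _) hcard
  have hne : s.Nonempty := by
    rw [← card_pos]
    exact_mod_cast hs0
  refine Many.mono hP1 (by linarith : ε / 4 ≤ ε)
    (h P ((le_max_left _ _).trans hP) _ _ _ hne fun k hk => ?_)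
  have hk0 : k 0 ≠ 0 := by
    intro h0
    apply hk
    funext j
    rw [Subsingleton.elim j 0, h0]
    rfl
  set S : Finset (ZMod P) := s.image fun h : (ZMod P)ˣ => (h : ZMod P) with hSdef
  have hScard : S.card = s.card := card_image_of_injective _ Units.val_injective
  have hS : ∀ x, x ∈ S ↔ ∃ h ∈ H, ((h : (ZMod P)ˣ) : ZMod P) = x := by
    intro x
    rw [hSdef, mem_image]
    simp only [hs]
  have hcard1 : 1 ≤ s.card := hne.card_pos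
  obtain ⟨b1, b2⟩ := sub_sum H S hS s.card hScard hcard1 (k 0 * x) (mul_ne_zero hk0 hx)
  have h2 : ∑ h ∈ s, (ZMod.stdAddChar (∑ j : Fin 1, k j * (x * (h : ZMod P))) : ℂ) =
      ∑ y ∈ S, (ZMod.stdAddChar (k 0 * x * y) : ℂ) := by
    rw [hSdef, sum_image (fun a _ b _ hab => Units.val_injective hab)]
    refine sum_congr rfl fun h _ => ?_
    rw [Fin.sum_univ_one, mul_assoc]
  rw [h2]
  set F : ℝ := ‖∑ y ∈ S, (ZMod.stdAddChar (k 0 * x * y) : ℂ)‖ with hF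
  have hF0 : 0 ≤ F := norm_nonneg _
  rcases lt_or_ge (s.card ^ 4) (P ^ 3) with hlt | hge
  · have h3 := b2 hlt
    have h4 : F ^ 8 ≤ (s.card * (P : ℝ) ^ (-(ε / 4))) ^ 8 := by
      refine h3.trans ?_
      have e1 : ((P : ℝ) ^ (-(ε / 4))) ^ 8 = (P : ℝ) ^ (-(2 * ε)) := by
        rw [← Real.rpow_natCast, ← Real.rpow_mul hP0.le]
        congr 1
        push_cast
        ring
      have e2 : ((s.card : ℝ) ^ (8 / 3 : ℝ)) ^ 2 * (s.card : ℝ) ^ (8 / 3 : ℝ) =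
          (s.card : ℝ) ^ 8 := by
        rw [← Real.rpow_natCast ((s.card : ℝ) ^ (8 / 3 : ℝ)), ← Real.rpow_mul hs0.le,
          ← Real.rpow_add hs0, ← Real.rpow_natCast (s.card : ℝ)]
        congr 1
        push_cast
        ring
      have e3 : (P : ℝ) ^ (1 + 8 * ε / 3) ≤ (s.card : ℝ) ^ (8 / 3 : ℝ) := by
        calc (P : ℝ) ^ (1 + 8 * ε / 3) = ((P : ℝ) ^ (3 / 8 + ε)) ^ (8 / 3 : ℝ) := by
              rw [← Real.rpow_mul hP0.le]; congr 1; ring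
          _ ≤ _ := Real.rpow_le_rpow (by positivity) hcard (by norm_num)
      have e4 : (P : ℝ) ^ (1 + 2 * ε) * (P : ℝ) ^ (-(2 * ε)) = P := by
        rw [← Real.rpow_add hP0]
        have : 1 + 2 * ε + -(2 * ε) = 1 := by ring
        rw [this, Real.rpow_one]
      have e5 : 64 * (P : ℝ) ≤ (s.card : ℝ) ^ (8 / 3 : ℝ) * (P : ℝ) ^ (-(2 * ε)) := by
        calc 64 * (P : ℝ) = (64 * (P : ℝ) ^ (1 + 2 * ε)) * (P : ℝ) ^ (-(2 * ε)) := by
              rw [mul_assoc, e4]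
          _ ≤ _ := mul_le_mul_of_nonneg_right (hP64.trans e3) (by positivity)
      calc (P : ℝ) * (8 * (s.card : ℝ) ^ (8 / 3 : ℝ)) ^ 2 =
          ((s.card : ℝ) ^ (8 / 3 : ℝ)) ^ 2 * (64 * P) := by ring
        _ ≤ ((s.card : ℝ) ^ (8 / 3 : ℝ)) ^ 2 *
            ((s.card : ℝ) ^ (8 / 3 : ℝ) * (P : ℝ) ^ (-(2 * ε))) :=
            mul_le_mul_of_nonneg_left e5 (by positivity)
        _ = (s.card * (P : ℝ) ^ (-(ε / 4))) ^ 8 := by
            rw [← mul_assoc, e2, mul_pow, e1]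
    exact (pow_le_pow_iff_left₀ hF0 (by positivity) (by norm_num)).1 h4
  · have h3 : (P : ℝ) ≤ (s.card * (P : ℝ) ^ (-(ε / 4))) ^ 2 := by
      have e1 : ((P : ℝ) ^ (-(ε / 4))) ^ 2 = (P : ℝ) ^ (-(ε / 2)) := by
        rw [← Real.rpow_natCast, ← Real.rpow_mul hP0.le]
        congr 1
        push_cast
        ring
      have e2 : (P : ℝ) ^ (3 / 2 : ℝ) ≤ (s.card : ℝ) ^ 2 := by
        have h4 : ((P : ℝ) ^ 3) ≤ (s.card : ℝ) ^ 4 := by exact_mod_cast hge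
        have h5 : ((P : ℝ) ^ (3 / 2 : ℝ)) ^ 2 ≤ ((s.card : ℝ) ^ 2) ^ 2 := by
          rw [← Real.rpow_natCast ((P : ℝ) ^ (3 / 2 : ℝ)), ← Real.rpow_mul hP0.le]
          calc (P : ℝ) ^ (3 / 2 * ((2 : ℕ) : ℝ)) = (P : ℝ) ^ 3 := by
                rw [← Real.rpow_natCast]; congr 1; norm_num
            _ ≤ (s.card : ℝ) ^ 4 := h4
            _ = _ := by ring
        exact (pow_le_pow_iff_left₀ (by positivity) (by positivity) (by norm_num)).1 h5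
      calc (P : ℝ) = (P : ℝ) ^ (1 : ℝ) := (Real.rpow_one _).symm
        _ ≤ (P : ℝ) ^ (3 / 2 + -(ε / 2)) := Real.rpow_le_rpow_of_exponent_le hP1 (by linarith)
        _ = (P : ℝ) ^ (3 / 2 : ℝ) * (P : ℝ) ^ (-(ε / 2)) := Real.rpow_add hP0 _ _
        _ ≤ (s.card : ℝ) ^ 2 * (P : ℝ) ^ (-(ε / 2)) :=
            mul_le_mul_of_nonneg_right e2 (by positivity)
        _ = _ := by rw [mul_pow, e1]
    exact (pow_le_pow_iff_left₀ hF0 (by positivity) (by norm_num)).1 (b1.trans h3)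

end Pool.Agent.N825.FC
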