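import Pool.Agent.N825.FC.Fin

set_option autoImplicit false

/-!
# Powers modulo primes in record prime gaps
-/

namespace Pool.Agent.N825.FC

open Finset Filter
open Pool.Agent.W147.PS (ff ff_compare ev_pow)

/-- many of the residues `g ^ n mod p`, `1 ≤ n ≤ p`, are centres -/
def Good (κ ε : ℝ) (g p : ℕ) : Prop :=
  ∃ N ⊆ Icc 1 p, (p : ℝ) ^ (3 / 8 : ℝ) ≤ N.card ∧ ∀ n ∈ N, Mid κ ε p ((g ^ n % p : ℕ) : ℤ)

lemma pow_card_primeFactors (m : ℕ) (hm : m ≠ 0) : 2 ^ m.primeFactors.card ≤ m := by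
  calc 2 ^ m.primeFactors.card = ∏ _p ∈ m.primeFactors, 2 := by rw [prod_const]
    _ ≤ ∏ p ∈ m.primeFactors, p :=
        prod_le_prod' fun p hp => (Nat.prime_of_mem_primeFactors hp).two_le
    _ ≤ m := Nat.le_of_dvd (Nat.pos_of_ne_zero hm) (Nat.prod_primeFactors_dvd m)

lemma card_pf (g t : ℕ) (hg : 2 ≤ g) (ht : 1 ≤ t) : (g ^ t - 1).primeFactors.card ≤ g * t := by
  have h1 : g ^ t - 1 ≠ 0 := by
    have : 2 ^ 1 ≤ g ^ t := by
      calc 2 ^ 1 ≤ 2 ^ t := Nat.pow_le_pow_right (by norm_num) ht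
        _ ≤ g ^ t := Nat.pow_le_pow_left hg t
    omega
  have h2 := pow_card_primeFactors _ h1
  have h3 : g ^ t - 1 ≤ 2 ^ (g * t) := by
    calc g ^ t - 1 ≤ g ^ t := Nat.sub_le _ _
      _ ≤ (2 ^ g) ^ t := Nat.pow_le_pow_left (Nat.lt_two_pow_self).le t
      _ = 2 ^ (g * t) := by rw [pow_mul]
  exact (Nat.pow_le_pow_iff_right (by norm_num)).1 (h2.trans h3)

theorem powers (ε : ℝ) (hε : 0 < ε) (hε1 : ε ≤ 1) : ∃ κ : ℝ, 0 < κ ∧
    ∀ g : ℕ, 2 ≤ g → ∃ C : ℝ, ∀ X : ℕ, 1 ≤ X → ∀ Q : Finset ℕ,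
      (∀ p ∈ Q, p.Prime ∧ p ≤ X ∧ ¬ Good κ ε g p) → (Q.card : ℝ) ≤ C * (X : ℝ) ^ (3 / 4 + ε) := by
  classical
  obtain ⟨κ, hκ, δ, hδ, P₀, h⟩ := cosets (ε / 4) (by positivity) (by linarith)
  refine ⟨κ, hκ, ?_⟩
  intro g hg
  set N₀ : ℕ := ⌈P₀⌉₊ with hN₀
  refine ⟨N₀ + g + 1 + g * 4, ?_⟩
  intro X hX Q hQ
  have hX1 : (1 : ℝ) ≤ X := by exact_mod_cast hX
  have hX0 : (0 : ℝ) < X := by linarith
  set T : ℕ := ⌈(X : ℝ) ^ (3 / 8 + ε / 2)⌉₊ with hT
  have hT1 : (1 : ℝ) ≤ (X : ℝ) ^ (3 / 8 + ε / 2) := Real.one_le_rpow hX1 (by positivity)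
  have hT2 : (T : ℝ) ≤ 2 * (X : ℝ) ^ (3 / 8 + ε / 2) := by
    have := Nat.ceil_lt_add_one (show 0 ≤ (X : ℝ) ^ (3 / 8 + ε / 2) by positivity)
    rw [← hT] at this
    linarith
  have hT3 : (X : ℝ) ^ (3 / 8 + ε / 2) ≤ T := Nat.le_ceil _
  -- the exceptional primes
  have hsub : Q ⊆ range N₀ ∪ range (g + 1) ∪ (Icc 1 T).biUnion fun t => (g ^ t - 1).primeFactors := by
    intro p hp
    obtain ⟨hpp, hpX, hbad⟩ := hQ p hp
    by_contra hcon
    rw [mem_union, mem_union, not_or, not_or, mem_range, mem_range] at hcon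
    obtain ⟨⟨c1, c2⟩, c3⟩ := hcon
    apply hbad
    have : Fact p.Prime := ⟨hpp⟩
    have hp1 : (1 : ℝ) ≤ p := by exact_mod_cast hpp.one_lt.le
    have hp0 : (0 : ℝ) < p := by linarith
    have hpP₀ : P₀ ≤ p := by
      have : N₀ ≤ p := by omega
      exact (Nat.le_ceil P₀).trans (by exact_mod_cast this)
    have hgp : ¬ p ∣ g := by
      intro hd
      have := Nat.le_of_dvd (by omega) hd
      omega
    have hg0 : (g : ZMod p) ≠ 0 := by
      rw [ne_eq, ZMod.natCast_eq_zero_iff]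
      exact hgp
    set u : (ZMod p)ˣ := Units.mk0 (g : ZMod p) hg0 with hu
    have hord0 : 0 < orderOf u := orderOf_pos u
    have hord : T < orderOf u := by
      by_contra hle
      rw [not_lt] at hle
      apply c3
      rw [mem_biUnion]
      refine ⟨orderOf u, mem_Icc.2 ⟨hord0, hle⟩, ?_⟩
      rw [Nat.mem_primeFactors]
      have h1 : ((g ^ orderOf u : ℕ) : ZMod p) = 1 := by
        have h2 := congrArg (fun z : (ZMod p)ˣ => (z : ZMod p)) (pow_orderOf_eq_one u)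
        simp only [Units.val_pow_eq_pow_val, Units.val_one, hu, Units.val_mk0] at h2
        push_cast
        exact h2
      have h3 : 1 ≤ g ^ orderOf u := Nat.one_le_pow _ _ (by omega)
      refine ⟨hpp, ?_, ?_⟩
      · have h4 : ((g ^ orderOf u - 1 : ℕ) : ZMod p) = 0 := by
          rw [Nat.cast_sub h3, h1, Nat.cast_one, sub_self]
        exact (ZMod.natCast_eq_zero_iff _ _).1 h4
      · have : 2 ^ 1 ≤ g ^ orderOf u := by
          calc 2 ^ 1 ≤ 2 ^ orderOf u := Nat.pow_le_pow_right (by norm_num) hord0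
            _ ≤ g ^ orderOf u := Nat.pow_le_pow_left hg _
        omega
    set s : Finset (ZMod p)ˣ := (Icc 1 (orderOf u)).image fun n => u ^ n with hs
    have hinj : Set.InjOn (fun n => u ^ n) (Icc 1 (orderOf u) : Finset ℕ) := by
      intro a ha b hb hab
      rw [coe_Icc, Set.mem_Icc] at ha hb
      have h1 : u ^ a = u ^ b := hab
      rw [pow_inj_mod] at h1
      rcases Nat.lt_or_ge a (orderOf u) with ha' | ha' <;>
        rcases Nat.lt_or_ge b (orderOf u) with hb' | hb'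
      · rwa [Nat.mod_eq_of_lt ha', Nat.mod_eq_of_lt hb'] at h1
      · have hbe : b = orderOf u := le_antisymm hb.2 hb'
        rw [Nat.mod_eq_of_lt ha', hbe, Nat.mod_self] at h1
        omega
      · have hae : a = orderOf u := le_antisymm ha.2 ha'
        rw [Nat.mod_eq_of_lt hb', hae, Nat.mod_self] at h1
        omega
      · omega
    have hscard : s.card = orderOf u := by
      rw [hs, card_image_of_injOn hinj, Nat.card_Icc]
      omega
    have hsH : ∀ h, h ∈ s ↔ h ∈ Subgroup.zpowers u := by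
      intro h
      rw [hs, mem_image]
      constructor
      · rintro ⟨n, _, rfl⟩
        exact Subgroup.pow_mem _ (Subgroup.mem_zpowers u) n
      · intro hh
        obtain ⟨n, hn⟩ := (mem_powers_iff_mem_zpowers (x := u) (y := h)).2 hh
        refine ⟨if n % orderOf u = 0 then orderOf u else n % orderOf u, ?_, ?_⟩
        · rw [mem_Icc]
          have := Nat.mod_lt n hord0
          split_ifs with h0 <;> omega
        · have hn' : u ^ n = h := hn
          split_ifs with h0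
          · rw [← hn', pow_orderOf_eq_one, ← pow_mod_orderOf, h0, pow_zero]
          · rw [← hn', pow_mod_orderOf]
    have hlarge : (p : ℝ) ^ (3 / 8 + ε / 4) ≤ s.card := by
      rw [hscard]
      have h1 : (T : ℝ) ≤ orderOf u := by exact_mod_cast hord.le
      have hpX' : (p : ℝ) ≤ X := by exact_mod_cast hpX
      calc (p : ℝ) ^ (3 / 8 + ε / 4) ≤ (X : ℝ) ^ (3 / 8 + ε / 4) :=
            Real.rpow_le_rpow hp0.le hpX' (by positivity)
        _ ≤ (X : ℝ) ^ (3 / 8 + ε / 2) := Real.rpow_le_rpow_of_exponent_le hX1 (by linarith)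
        _ ≤ _ := hT3.trans h1
    have hlarge2 : (p : ℝ) ^ (3 / 8 + ε / 2) ≤ s.card := by
      rw [hscard]
      have h1 : (T : ℝ) ≤ orderOf u := by exact_mod_cast hord.le
      have hpX' : (p : ℝ) ≤ X := by exact_mod_cast hpX
      calc (p : ℝ) ^ (3 / 8 + ε / 2) ≤ (X : ℝ) ^ (3 / 8 + ε / 2) :=
            Real.rpow_le_rpow hp0.le hpX' (by positivity)
        _ ≤ _ := hT3.trans h1
    obtain ⟨G, hG, hG1, hG2⟩ := h p hpP₀ (Subgroup.zpowers u) s hsH hlarge 1 one_ne_zero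
      (fun _ => 0) p (by
        calc (p : ℝ) ^ (1 - δ) ≤ (p : ℝ) ^ (1 : ℝ) :=
              Real.rpow_le_rpow_of_exponent_le hp1 (by linarith)
          _ = p := Real.rpow_one _) le_rfl
    refine ⟨(Icc 1 (orderOf u)).filter fun n => u ^ n ∈ G, ?_, ?_, ?_⟩
    · intro n hn
      have h1 := mem_Icc.1 (mem_filter.1 hn).1
      rw [mem_Icc]
      have h2 : orderOf u ≤ p := by
        have h3 := orderOf_dvd_card (x := u)
        rw [ZMod.card_units_eq_totient, Nat.totient_prime hpp] at h3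
        have := Nat.le_of_dvd (by have := hpp.two_le; omega) h3
        omega
      exact ⟨h1.1, h1.2.trans h2⟩
    · have h1 : G.card ≤ ((Icc 1 (orderOf u)).filter fun n => u ^ n ∈ G).card := by
        have h2 : G ⊆ ((Icc 1 (orderOf u)).filter fun n => u ^ n ∈ G).image fun n => u ^ n := by
          intro y hy
          obtain ⟨n, hn, rfl⟩ := mem_image.1 (hG hy)
          exact mem_image.2 ⟨n, mem_filter.2 ⟨hn, hy⟩, rfl⟩
        exact (card_le_card h2).trans card_image_le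
      have h3 : (p : ℝ) ^ (3 / 8 : ℝ) ≤ s.card * (p : ℝ) ^ (-(ε / 4)) := by
        calc (p : ℝ) ^ (3 / 8 : ℝ) ≤ (p : ℝ) ^ (3 / 8 + ε / 2 + -(ε / 4)) :=
              Real.rpow_le_rpow_of_exponent_le hp1 (by linarith)
          _ = (p : ℝ) ^ (3 / 8 + ε / 2) * (p : ℝ) ^ (-(ε / 4)) := Real.rpow_add hp0 _ _
          _ ≤ _ := mul_le_mul_of_nonneg_right hlarge2 (by positivity)
      have h4 : (G.card : ℝ) ≤ ((Icc 1 (orderOf u)).filter fun n => u ^ n ∈ G).card := by
        exact_mod_cast h1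
      linarith
    · intro n hn
      obtain ⟨m, a1, a2, a3, a4⟩ := hG2 (u ^ n) (mem_filter.1 hn).2 0
      have a3 : (m : ZMod p) = ((u ^ n : (ZMod p)ˣ) : ZMod p) := by rw [a3]; simp
      have h1 : m = ((g ^ n % p : ℕ) : ℤ) := by
        have h5 : ((((g ^ n % p : ℕ) : ℤ)) : ZMod p) = (m : ZMod p) := by
          rw [a3]
          simp [hu]
        have h6 : g ^ n % p ≠ 0 := by
          intro h0
          rw [h0] at h5
          have h7 : (m : ZMod p) = 0 := by rw [← h5]; simp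
          rw [a3] at h7
          exact (u ^ n).ne_zero h7
        have h7 := Nat.mod_lt (g ^ n) hpp.pos
        have h8 := rep_unique 0 (m : ZMod p) m a1 (by simpa using a2) rfl
        have h9 := rep_unique 0 (m : ZMod p) ((g ^ n % p : ℕ) : ℤ) (by omega) (by omega) h5
        rw [h8, h9]
      rw [← h1]
      exact a4.mono hp1 (by linarith)
  have hc1 : ((Icc 1 T).biUnion fun t => (g ^ t - 1).primeFactors).card ≤ g * T ^ 2 := by
    refine card_biUnion_le.trans ?_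
    calc ∑ t ∈ Icc 1 T, (g ^ t - 1).primeFactors.card ≤ ∑ t ∈ Icc 1 T, g * T := by
          refine sum_le_sum fun t ht => ?_
          rw [mem_Icc] at ht
          exact (card_pf g t hg ht.1).trans (Nat.mul_le_mul_left _ ht.2)
      _ = g * T ^ 2 := by
          rw [sum_const, Nat.card_Icc, smul_eq_mul]
          simp only [Nat.add_sub_cancel]
          ring
  have hc2 : Q.card ≤ N₀ + (g + 1) + g * T ^ 2 := by
    refine (card_le_card hsub).trans ((card_union_le _ _).trans ?_)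
    have := card_union_le (range N₀) (range (g + 1))
    rw [card_range, card_range] at this
    omega
  have hc3 : (Q.card : ℝ) ≤ N₀ + (g + 1) + g * (T : ℝ) ^ 2 := by exact_mod_cast hc2
  have hX4 : (1 : ℝ) ≤ (X : ℝ) ^ (3 / 4 + ε) := Real.one_le_rpow hX1 (by positivity)
  have hT4 : (T : ℝ) ^ 2 ≤ 4 * (X : ℝ) ^ (3 / 4 + ε) := by
    calc (T : ℝ) ^ 2 ≤ (2 * (X : ℝ) ^ (3 / 8 + ε / 2)) ^ 2 :=
          pow_le_pow_left₀ (Nat.cast_nonneg _) hT2 2
      _ = 4 * ((X : ℝ) ^ (3 / 8 + ε / 2)) ^ 2 := by ring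
      _ = 4 * (X : ℝ) ^ (3 / 4 + ε) := by
          rw [← Real.rpow_natCast, ← Real.rpow_mul hX0.le]
          congr 2
          push_cast
          ring
  have hg0 : (0 : ℝ) ≤ g := Nat.cast_nonneg _
  have hN0 : (0 : ℝ) ≤ N₀ := Nat.cast_nonneg _
  have h5 : (g : ℝ) * (T : ℝ) ^ 2 ≤ g * (4 * (X : ℝ) ^ (3 / 4 + ε)) :=
    mul_le_mul_of_nonneg_left hT4 hg0
  nlinarith

end Pool.Agent.N825.FC
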